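import Pool.Agent.Run7.h771.QC.Fg

/-!
# The Schwinger-Dyson equation for a general vector field (piece Q10)
-/

open MeasureTheory Matrix Filter Topology
open scoped Matrix.Norms.Frobenius ComplexConjugate

namespace Run7.h771.QC

open Run7.h4.YM Run7.h630.ML Run7.h630.MQ Run7.h630.QC Run7.h771.MQ

variable {N n L l : ℕ}

theorem pr_eq_self {A : Mt N} (hA : SkT A) : pr A = A := by
  unfold pr
  rw [hA.1, sub_neg_eq_add, trace_add, hA.2, add_zero, zero_div, zero_smul, sub_zero, ← two_smul ℂ,
    smul_smul]
  norm_num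

theorem skT_pr [NeZero N] (A : Mt N) : SkT (pr A) := by
  have hN : (N : ℂ) ≠ 0 := Nat.cast_ne_zero.2 (NeZero.ne N)
  constructor
  · unfold pr
    rw [conjTranspose_sub, conjTranspose_smul, conjTranspose_smul, conjTranspose_sub,
      conjTranspose_conjTranspose, conjTranspose_one]
    have h1 : star (1 / 2 : ℂ) = 1 / 2 := by simp
    have h2 : star (trace (A - Aᴴ) / (2 * N)) = -(trace (A - Aᴴ) / (2 * N)) := by
      rw [star_div₀, trace_sub, trace_conjTranspose, star_sub, star_star]
      have : star (2 * (N : ℂ)) = 2 * N := by simp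
      rw [this, ← neg_div, neg_sub]
    rw [h1, h2, neg_sub]
    module
  · unfold pr
    rw [trace_sub, trace_smul, trace_smul, trace_one, Fintype.card_fin, smul_eq_mul, smul_eq_mul]
    field_simp
    ring

/-- the decomposition of an element of the Lie algebra -/
theorem sum_units {A : Mt N} (hA : SkT A) :
    A = ∑ a : Fin N, ∑ b : Fin N, ((A a b).re • pr (Eu a b) +
      (A a b).im • pr (Complex.I • Eu a b)) := by
  have h1 : A = ∑ a : Fin N, ∑ b : Fin N, ((A a b).re • (Eu a b) +
      (A a b).im • (Complex.I • Eu a b)) := by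
    conv_lhs => rw [matrix_eq_sum_single A]
    refine Finset.sum_congr rfl fun a _ => Finset.sum_congr rfl fun b _ => ?_
    unfold Eu
    ext i j
    simp only [Matrix.add_apply, Matrix.smul_apply, Matrix.single_apply]
    split_ifs
    · simp only [Complex.real_smul, smul_eq_mul, mul_one]
      exact (Complex.re_add_im (A a b)).symm
    · simp
  conv_lhs => rw [← pr_eq_self hA, h1]
  have h2 : ∀ B : Mt N, pr B = prL N B := fun B => rfl
  rw [h2]
  simp only [map_sum, map_add, map_smul]
  rfl

theorem dSq_sum [NeZero n] [NeZero L] [NeZero l] (k : ℕ)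
    (q : ZMod n × ZMod L → ZMod N) (U : Link n L l → SU N) (K : Link n L l → Mt N)
    (hK : ∀ e, SkT (K e)) :
    dSq k q U K = ∑ e, ∑ a : Fin N, ∑ b : Fin N,
      ((K e a b).re * dSq k q U (Pi.single e (pr (Eu a b))) +
        (K e a b).im * dSq k q U (Pi.single e (pr (Complex.I • Eu a b)))) := by
  have h1 : K = ∑ e, Pi.single e (K e) := (Finset.univ_sum_single K).symm
  have h2 : ∀ K', dSq k q U K' = dSqL k q U K' := fun _ => rfl
  have h3 : ∀ e, (Pi.single e (K e) : Link n L l → Mt N) = ∑ a : Fin N, ∑ b : Fin N,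
      ((K e a b).re • (Pi.single e (pr (Eu a b)) : Link n L l → Mt N) +
        (K e a b).im • (Pi.single e (pr (Complex.I • Eu a b)) : Link n L l → Mt N)) := by
    intro e
    conv_lhs => rw [sum_units (hK e)]
    funext e'
    by_cases h : e' = e
    · subst h
      simp only [Pi.single_eq_same, Finset.sum_apply, Pi.add_apply, Pi.smul_apply]
    · simp only [Pi.single_eq_of_ne h, Finset.sum_apply, Pi.add_apply, Pi.smul_apply, smul_zero,
        add_zero, Finset.sum_const_zero]
  conv_lhs => rw [h1]
  rw [h2, map_sum]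
  refine Finset.sum_congr rfl fun e _ => ?_
  rw [h3 e]
  simp only [map_sum, map_add, map_smul, smul_eq_mul]
  rfl

theorem exists_bound (f : (Link n L l → SU N) → ℝ) (hf : Continuous f) :
    ∃ C : ℝ, 0 ≤ C ∧ ∀ U, |f U| ≤ C := by
  obtain ⟨C, hC⟩ := (isCompact_univ (X := Link n L l → SU N)).exists_bound_of_continuousOn
    hf.continuousOn
  exact ⟨|C|, abs_nonneg _, fun U => (hC U (Set.mem_univ U)).trans (le_abs_self C)⟩

/-- the Schwinger-Dyson equation of one component -/
theorem sd_one [NeZero n] [NeZero L] [NeZero l] [MeasurableSpace (SU N)]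
    [BorelSpace (SU N)] (μ : Measure (SU N)) [IsProbabilityMeasure μ] [μ.IsHaarMeasure]
    (k : ℕ) (q : ZMod n × ZMod L → ZMod N) (β : ℝ)
    {K : Link n L l → Mt N} (hK : ∀ e, SkT (K e)) (f Df : (Link n L l → SU N) → ℝ)
    (hf : Continuous f) (C : ℝ) (hC : ∀ U, |Df U| ≤ C)
    (hd : ∀ U, HasDerivAt (fun t : ℝ => f (fg K t U)) (Df U) 0) :
    Measurable Df ∧
    Integrable (fun U => (β * (f U * dSq k q U K) - Df U) * Real.exp (-(β * Sq k q U)))
      (Measure.pi fun _ : Link n L l => μ) ∧
    ∫ U, (β * (f U * dSq k q U K) - Df U) * Real.exp (-(β * Sq k q U))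
      ∂(Measure.pi fun _ : Link n L l => μ) = 0 := by
  have hm : Measurable Df := measurable_deriv K f Df hf hd
  have hE : Continuous fun U : Link n L l → SU N => Real.exp (-(β * Sq k q U)) :=
    Real.continuous_exp.comp (continuous_const.mul (continuous_Sq k q)).neg
  obtain ⟨C1, hC1, hb1⟩ := exists_bound f hf
  obtain ⟨C2, hC2, hb2⟩ := exists_bound _ hE
  obtain ⟨C3, hC3, hb3⟩ := exists_bound _ (continuous_dSq (n := n) (L := L) (l := l) k q K)
  have hbd : ∀ U, |(β * (f U * dSq k q U K) - Df U) * Real.exp (-(β * Sq k q U))| ≤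
      (|β| * (C1 * C3) + C) * C2 := by
    intro U
    rw [abs_mul]
    refine mul_le_mul ?_ (hb2 U) (abs_nonneg _) ?_
    · refine (abs_sub _ _).trans (add_le_add ?_ (hC U))
      rw [abs_mul, abs_mul]
      exact mul_le_mul_of_nonneg_left (mul_le_mul (hb1 U) (hb3 U) (abs_nonneg _) hC1)
        (abs_nonneg _)
    · have := (abs_nonneg _).trans (hC U)
      positivity
  have hmeas : Measurable fun U : Link n L l → SU N =>
      (β * (f U * dSq k q U K) - Df U) * Real.exp (-(β * Sq k q U)) :=
    (((hf.mul (continuous_dSq k q K)).measurable.const_mul β).sub hm).mul hE.measurable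
  refine ⟨hm, ?_, ?_⟩
  · exact Integrable.of_bound hmeas.aestronglyMeasurable _ (Eventually.of_forall hbd)
  · have h1 := ibp μ hK (fun U => -(f U * Real.exp (-(β * Sq k q U))))
      (fun U => (β * (f U * dSq k q U K) - Df U) * Real.exp (-(β * Sq k q U)))
      (hf.mul hE).neg _ hbd ?_
    · exact h1
    · intro U
      have h2 := (hasDerivAt_Sq k q U hK).const_mul β
      have h3 := (h2.neg).exp
      have h4 := ((hd U).mul h3).neg
      refine h4.congr_deriv ?_
      simp only [Pi.neg_apply, fg_zero]
      ring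

theorem abs_entry_le (M : Mt N) (a b : Fin N) : ‖M a b‖ ≤ ‖M‖ := by
  have h := Matrix.frobenius_norm_def M
  rw [h, ← Real.sqrt_eq_rpow]
  refine Real.le_sqrt_of_sq_le ?_
  simp only [Real.rpow_ofNat]
  refine le_trans ?_ (Finset.single_le_sum (f := fun i => ∑ j, ‖M i j‖ ^ 2)
    (fun i _ => Finset.sum_nonneg fun j _ => sq_nonneg _) (Finset.mem_univ a))
  exact Finset.single_le_sum (f := fun j => ‖M a j‖ ^ 2) (fun j _ => sq_nonneg _)
    (Finset.mem_univ b)

/-- the entries as linear maps -/
noncomputable def reL (a b : Fin N) : Mt N →ₗ[ℝ] ℝ where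
  toFun M := (M a b).re
  map_add' _ _ := by simp
  map_smul' _ _ := by simp

/-- the entries as linear maps -/
noncomputable def imL (a b : Fin N) : Mt N →ₗ[ℝ] ℝ where
  toFun M := (M a b).im
  map_add' _ _ := by simp
  map_smul' _ _ := by simp

theorem t_Q10 : S_Q10 := by
  intro N n L l k _ _ _ _ _ _ μ _ _ q β X Kd C hX hS hD
  have hre : ∀ (e : Link n L l) (a b : Fin N), _ := fun e a b =>
    sd_one μ k q β (skT_single (skT_pr (Eu a b)) e)
      (fun U : Link n L l → SU N => (X U e a b).re)
      (fun U => ((Kd U e (pr (Eu a b))) a b).re)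
      ((LinearMap.toContinuousLinearMap (reL a b)).continuous.comp (hX e))
      (C * ‖pr (Eu a b)‖)
      (fun U => (Complex.abs_re_le_norm _).trans ((abs_entry_le _ a b).trans
        (hD U e _ (skT_pr _)).2))
      (fun U => (LinearMap.toContinuousLinearMap (reL a b)).hasFDerivAt.comp_hasDerivAt (0 : ℝ)
        (hD U e _ (skT_pr _)).1)
  have him : ∀ (e : Link n L l) (a b : Fin N), _ := fun e a b =>
    sd_one μ k q β (skT_single (skT_pr (Complex.I • Eu a b)) e)
      (fun U : Link n L l → SU N => (X U e a b).im)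
      (fun U => ((Kd U e (pr (Complex.I • Eu a b))) a b).im)
      ((LinearMap.toContinuousLinearMap (imL a b)).continuous.comp (hX e))
      (C * ‖pr (Complex.I • Eu a b)‖)
      (fun U => (Complex.abs_im_le_norm _).trans ((abs_entry_le _ a b).trans
        (hD U e _ (skT_pr _)).2))
      (fun U => (LinearMap.toContinuousLinearMap (imL a b)).hasFDerivAt.comp_hasDerivAt (0 : ℝ)
        (hD U e _ (skT_pr _)).1)
  constructor
  · refine Finset.measurable_fun_sum _ fun e _ => Finset.measurable_fun_sum _ fun a _ =>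
      Finset.measurable_fun_sum _ fun b _ => ?_
    exact (hre e a b).1.add (him e a b).1
  · have key : ∀ U : Link n L l → SU N, (β * dSq k q U (X U) -
        ∑ e, ∑ a : Fin N, ∑ b : Fin N, (((Kd U e (pr (Eu a b))) a b).re +
          ((Kd U e (pr (Complex.I • Eu a b))) a b).im)) * Real.exp (-(β * Sq k q U)) =
        ∑ e, ∑ a : Fin N, ∑ b : Fin N,
          ((β * ((X U e a b).re * dSq k q U (Pi.single e (pr (Eu a b)))) -
            ((Kd U e (pr (Eu a b))) a b).re) * Real.exp (-(β * Sq k q U)) +
          (β * ((X U e a b).im * dSq k q U (Pi.single e (pr (Complex.I • Eu a b)))) -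
            ((Kd U e (pr (Complex.I • Eu a b))) a b).im) * Real.exp (-(β * Sq k q U))) := by
      intro U
      rw [dSq_sum k q U (X U) (hS U), Finset.mul_sum, ← Finset.sum_sub_distrib, Finset.sum_mul]
      refine Finset.sum_congr rfl fun e _ => ?_
      rw [Finset.mul_sum, ← Finset.sum_sub_distrib, Finset.sum_mul]
      refine Finset.sum_congr rfl fun a _ => ?_
      rw [Finset.mul_sum, ← Finset.sum_sub_distrib, Finset.sum_mul]
      refine Finset.sum_congr rfl fun b _ => ?_
      ring
    simp only [key]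
    have hint : ∀ (e : Link n L l) (a b : Fin N), Integrable (fun U : Link n L l → SU N =>
        (β * ((X U e a b).re * dSq k q U (Pi.single e (pr (Eu a b)))) -
            ((Kd U e (pr (Eu a b))) a b).re) * Real.exp (-(β * Sq k q U)) +
          (β * ((X U e a b).im * dSq k q U (Pi.single e (pr (Complex.I • Eu a b)))) -
            ((Kd U e (pr (Complex.I • Eu a b))) a b).im) * Real.exp (-(β * Sq k q U)))
        (Measure.pi fun _ : Link n L l => μ) := fun e a b => (hre e a b).2.1.add (him e a b).2.1
    rw [integral_finsetSum _ fun e _ => integrable_finsetSum _ fun a _ =>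
      integrable_finsetSum _ fun b _ => hint e a b]
    refine Finset.sum_eq_zero fun e _ => ?_
    rw [integral_finsetSum _ fun a _ => integrable_finsetSum _ fun b _ => hint e a b]
    refine Finset.sum_eq_zero fun a _ => ?_
    rw [integral_finsetSum _ fun b _ => hint e a b]
    refine Finset.sum_eq_zero fun b _ => ?_
    rw [integral_add (hre e a b).2.1 (him e a b).2.1, (hre e a b).2.2, (him e a b).2.2, add_zero]

end Run7.h771.QC
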