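import Pool.Agent.Run7.h771.QC.Loop

/-!
# The derivative of the vector field `Kf` (piece Q8)
-/

open MeasureTheory Matrix Filter Topology
open scoped Matrix.Norms.Frobenius ComplexConjugate

namespace Run7.h771.QC

open Run7.h4.YM Run7.h630.ML Run7.h630.MQ Run7.h630.QC Run7.h771.MQ Run7.h370.QC Run7.h370.MQ

variable {N n L l : ℕ}

/-- the source -/
noncomputable def hh (α : Col N) (U : Link n L l → SU N) (K : Link n L l → Mt N) (i : Fin 4)
    (x : Site n L l) : ℂ := conj (trace ((Dr α U x).1 * K (i, x)))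

theorem transport (hQ1 : S_Q1) [NeZero N] [NeZero n] [NeZero L] [NeZero l] (k : ℕ)
    (q : ZMod n × ZMod L → ZMod N) (U : Link n L l → SU N) (α : Col N) (x : Site n L l)
    (j : Fin 4) (B : Mt N) :
    ‖trace ((Dr α U x).1 * ((U (j, x)).1 * B * (U (j, x)).1ᴴ)) -
      conj (rh k α x j) * trace ((Dr α U (x + dir j)).1 * B)‖ ≤
      N * (2 * N * l * ss k q U * ‖B‖) := by
  have h1 := hQ1 N n L l k q U α x j
  set X : Mt N := (U (j, x)).1 * (Dr α U (x + dir j)).1 * (U (j, x)).1ᴴ -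
    rh k α x j • (Dr α U x).1 with hX
  have h2 : (Dr α U x).1 = conj (rh k α x j) • ((U (j, x)).1 * (Dr α U (x + dir j)).1 *
      (U (j, x)).1ᴴ) - conj (rh k α x j) • X := by
    rw [hX, smul_sub, sub_sub_cancel, smul_smul, conj_mul_self (rh_norm k α x j), one_smul]
  have h3 : trace ((U (j, x)).1 * (Dr α U (x + dir j)).1 * (U (j, x)).1ᴴ *
      ((U (j, x)).1 * B * (U (j, x)).1ᴴ)) = trace ((Dr α U (x + dir j)).1 * B) := by
    have h4 : (U (j, x)).1ᴴ * (U (j, x)).1 = 1 := star_mul_self (U (j, x))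
    calc _ = trace ((U (j, x)).1 * ((Dr α U (x + dir j)).1 * ((U (j, x)).1ᴴ *
          (U (j, x)).1) * B) * (U (j, x)).1ᴴ) := by simp only [mul_assoc]
      _ = _ := by rw [trace_cj, h4, mul_one]
  have h5 : trace ((Dr α U x).1 * ((U (j, x)).1 * B * (U (j, x)).1ᴴ)) -
      conj (rh k α x j) * trace ((Dr α U (x + dir j)).1 * B) =
      -(conj (rh k α x j) * trace (X * ((U (j, x)).1 * B * (U (j, x)).1ᴴ))) := by
    rw [h2, sub_mul, smul_mul_assoc, smul_mul_assoc, trace_sub, trace_smul, trace_smul, h3,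
      smul_eq_mul, smul_eq_mul]
    ring
  rw [h5, norm_neg, norm_mul, RCLike.norm_conj, rh_norm, one_mul]
  refine (norm_tr_mul_le _ _).trans ?_
  have h6 : ‖(U (j, x)).1 * B * (U (j, x)).1ᴴ‖ = ‖B‖ := by
    have : (U (j, x)).1ᴴ = ((U (j, x))⁻¹).1 := rfl
    rw [this, norm_mul_SU, norm_SU_mul]
  rw [h6]
  exact mul_le_mul_of_nonneg_left (mul_le_mul_of_nonneg_right h1 (norm_nonneg _))
    (Nat.cast_nonneg _)

theorem hasDerivAt_trace (f : ℝ → Mt N) (f' : Mt N) (h : HasDerivAt f f' 0) :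
    HasDerivAt (fun t => trace (f t)) (trace f') 0 :=
  (LinearMap.toContinuousLinearMap (Matrix.traceLinearMap (Fin N) ℝ ℂ)).hasFDerivAt.comp_hasDerivAt
    (0 : ℝ) h

theorem hasDerivAt_ph2 (hQ1 : S_Q1) [NeZero N] [NeZero n] [NeZero L] [NeZero l] (k : ℕ)
    (q : ZMod n × ZMod L → ZMod N) (U : Link n L l → SU N) {K : Link n L l → Mt N}
    (hK : ∀ e, SkT (K e)) {M : ℝ} (hM : ∀ e, ‖K e‖ ≤ M) (hM0 : 0 ≤ M) (α : Col N)
    (i j : Fin 4) (x : Site n L l) :
    ∃ d : ℂ, HasDerivAt (fun t : ℝ => ph2 k q α (fg K t U) i j x) d 0 ∧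
      ‖conj d - (nb k α i (hh α U K j) x - nb k α j (hh α U K i) x)‖ ≤
        10 * N ^ 2 * l * M * ss k q U := by
  obtain ⟨D, hD, bD⟩ := hasDerivAt_Dr U hK hM α x
  have hF : HasDerivAt (fun t : ℝ => Fc k q (fg K t U) x i j)
      (zz N k q x i j • dp U K x i j) 0 := by
    unfold Fc
    exact ((hasDerivAt_plaqg U hK x i j).const_smul (zz N k q x i j)).sub_const 1
  have hT := hasDerivAt_trace _ _ (hD.mul hF)
  refine ⟨_, hT, ?_⟩
  simp only [fg_zero]
  set F := Fc k q U x i j with hFdef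
  have hs := ss_nonneg k q U
  have hFn : ‖F‖ ≤ ss k q U := Fc_le k q U x i j
  set B1 : Mt N := K (i, x) + (U (i, x)).1 * K (j, x + dir i) * (U (i, x)).1ᴴ with hB1
  set B2 : Mt N := (U (j, x)).1 * K (i, x + dir j) * (U (j, x)).1ᴴ + K (j, x) with hB2
  have hcj : ∀ (g : SU N) (B : Mt N), ‖g.1 * B * g.1ᴴ‖ = ‖B‖ := by
    intro g B
    have : g.1ᴴ = (g⁻¹).1 := rfl
    rw [this, norm_mul_SU, norm_SU_mul]
  have nB1 : ‖B1‖ ≤ 2 * M := by
    refine (norm_add_le _ _).trans ?_
    rw [hcj]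
    linarith [hM (i, x), hM (j, x + dir i)]
  have nB2 : ‖B2‖ ≤ 2 * M := by
    refine (norm_add_le _ _).trans ?_
    rw [hcj]
    linarith [hM (j, x), hM (i, x + dir j)]
  have hP : zz N k q x i j • (plaq U x i j).1 = 1 + F := by
    rw [hFdef]
    unfold Fc
    abel
  have hdp : zz N k q x i j • dp U K x i j = (B1 - B2) + (B1 * F - F * B2) := by
    unfold dp
    rw [smul_sub, ← mul_smul_comm, ← smul_mul_assoc, hP]
    have hgen : ∀ X Y G : Mt N, X * (1 + G) - (1 + G) * Y = (X - Y) + (X * G - G * Y) := by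
      intro X Y G
      rw [mul_add, add_mul, mul_one, one_mul]
      abel
    exact hgen B1 B2 F
  have hsum : trace (D * F + (Dr α U x).1 * zz N k q x i j • dp U K x i j) =
      trace (D * F) + trace ((Dr α U x).1 * (B1 * F - F * B2)) +
      (trace ((Dr α U x).1 * K (i, x)) +
        trace ((Dr α U x).1 * ((U (i, x)).1 * K (j, x + dir i) * (U (i, x)).1ᴴ)) -
        trace ((Dr α U x).1 * ((U (j, x)).1 * K (i, x + dir j) * (U (j, x)).1ᴴ)) -
        trace ((Dr α U x).1 * K (j, x))) := by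
    rw [hdp, trace_add, mul_add, trace_add, mul_sub _ B1 B2, trace_sub, hB1, hB2, mul_add, mul_add,
      trace_add, trace_add]
    ring
  have ht1 := transport hQ1 k q U α x i (K (j, x + dir i))
  have ht2 := transport hQ1 k q U α x j (K (i, x + dir j))
  set t1 := trace ((Dr α U x).1 * ((U (i, x)).1 * K (j, x + dir i) * (U (i, x)).1ᴴ))
  set t2 := trace ((Dr α U x).1 * ((U (j, x)).1 * K (i, x + dir j) * (U (j, x)).1ᴴ))
  set s1 := trace ((Dr α U (x + dir i)).1 * K (j, x + dir i)) with hs1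
  set s2 := trace ((Dr α U (x + dir j)).1 * K (i, x + dir j)) with hs2
  have hnb : nb k α i (hh α U K j) x - nb k α j (hh α U K i) x =
      conj (conj (rh k α x i) * s1 - trace ((Dr α U x).1 * K (j, x)) -
        (conj (rh k α x j) * s2 - trace ((Dr α U x).1 * K (i, x)))) := by
    unfold nb hh
    simp only [map_sub, map_mul, Complex.conj_conj, hs1, hs2]
  have e : conj (trace (D * F + (Dr α U x).1 * zz N k q x i j • dp U K x i j)) -
      (nb k α i (hh α U K j) x - nb k α j (hh α U K i) x) =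
      conj (trace (D * F) + trace ((Dr α U x).1 * (B1 * F - F * B2)) +
        (t1 - conj (rh k α x i) * s1) - (t2 - conj (rh k α x j) * s2)) := by
    rw [hnb, hsum, ← map_sub]
    congr 1
    ring
  rw [e, RCLike.norm_conj]
  have hN0 : (0 : ℝ) ≤ N := Nat.cast_nonneg N
  have hN1 : (1 : ℝ) ≤ N := by exact_mod_cast Nat.pos_of_neZero N
  have hl1 : (1 : ℝ) ≤ l := by exact_mod_cast Nat.pos_of_neZero l
  have c1 : ‖trace (D * F)‖ ≤ 2 * N ^ 2 * l * M * ss k q U := by
    refine (norm_tr_mul_le _ _).trans ?_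
    calc (N : ℝ) * (‖D‖ * ‖F‖) ≤ N * ((2 * N * l * M) * ss k q U) := by gcongr
      _ = _ := by ring
  have c2 : ‖trace ((Dr α U x).1 * (B1 * F - F * B2))‖ ≤ 4 * N ^ 2 * l * M * ss k q U := by
    refine (norm_tr_mul_le _ _).trans ?_
    have h1 : ‖B1 * F - F * B2‖ ≤ 4 * M * ss k q U := by
      refine (norm_sub_le _ _).trans ?_
      calc ‖B1 * F‖ + ‖F * B2‖ ≤ ‖B1‖ * ‖F‖ + ‖F‖ * ‖B2‖ :=
            add_le_add (frobenius_norm_mul _ _) (frobenius_norm_mul _ _)
        _ ≤ (2 * M) * ss k q U + ss k q U * (2 * M) := by gcongr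
        _ = _ := by ring
    calc (N : ℝ) * (‖(Dr α U x).1‖ * ‖B1 * F - F * B2‖) ≤ N * (N * (4 * M * ss k q U)) := by
          gcongr
          exact norm_SU_le _
      _ = 4 * N ^ 2 * 1 * M * ss k q U := by ring
      _ ≤ _ := by gcongr
  have c3 : ‖t1 - conj (rh k α x i) * s1‖ ≤ 2 * N ^ 2 * l * M * ss k q U := by
    refine ht1.trans ?_
    calc (N : ℝ) * (2 * N * l * ss k q U * ‖K (j, x + dir i)‖)
        ≤ N * (2 * N * l * ss k q U * M) := by gcongr; exact hM _
      _ = _ := by ring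
  have c4 : ‖t2 - conj (rh k α x j) * s2‖ ≤ 2 * N ^ 2 * l * M * ss k q U := by
    refine ht2.trans ?_
    calc (N : ℝ) * (2 * N * l * ss k q U * ‖K (i, x + dir j)‖)
        ≤ N * (2 * N * l * ss k q U * M) := by gcongr; exact hM _
      _ = _ := by ring
  refine (norm_sub_le _ _).trans ?_
  have c5 := norm_add₃_le (a := trace (D * F)) (b := trace ((Dr α U x).1 * (B1 * F - F * B2)))
    (c := (t1 - conj (rh k α x i) * s1))
  nlinarith

theorem hasDerivAt_conj (f : ℝ → ℂ) (f' : ℂ) (h : HasDerivAt f f' 0) :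
    HasDerivAt (fun t => conj (f t)) (conj f') 0 :=
  Complex.conjCLE.hasFDerivAt.comp_hasDerivAt (0 : ℝ) h

theorem hasDerivAt_ps (hQ1 : S_Q1) [NeZero N] [NeZero n] [NeZero L] [NeZero l] (k : ℕ)
    (q : ZMod n × ZMod L → ZMod N) (U : Link n L l → SU N) {K : Link n L l → Mt N}
    (hK : ∀ e, SkT (K e)) {M : ℝ} (hM : ∀ e, ‖K e‖ ≤ M) (hM0 : 0 ≤ M) (α : Col N) :
    ∃ D : Fin 4 → Fin 4 → Site n L l → ℂ,
      (∀ i j x, HasDerivAt (fun t : ℝ => ps k q α (fg K t U) i j x) (D i j x) 0) ∧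
      ∀ i j x, ‖D i j x - (nb k α i (hh α U K j) x - nb k α j (hh α U K i) x)‖ ≤
        10 * N ^ 2 * l * M * ss k q U := by
  choose d hd bd using fun i j x => hasDerivAt_ph2 hQ1 k q U hK hM hM0 α i j x
  have hs := ss_nonneg k q U
  refine ⟨fun i j x => if i < j then conj (d i j x) else if j < i then -conj (d j i x) else 0,
    fun i j x => ?_, fun i j x => ?_⟩
  · unfold ps
    by_cases h1 : i < j
    · simp only [if_pos h1]
      exact hasDerivAt_conj _ _ (hd i j x)
    · simp only [if_neg h1]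
      by_cases h2 : j < i
      · simp only [if_pos h2]
        exact (hasDerivAt_conj _ _ (hd j i x)).neg
      · simp only [if_neg h2]
        exact hasDerivAt_const _ _
  · by_cases h1 : i < j
    · simp only [if_pos h1]
      exact bd i j x
    · simp only [if_neg h1]
      by_cases h2 : j < i
      · simp only [if_pos h2]
        have h3 : -conj (d j i x) - (nb k α i (hh α U K j) x - nb k α j (hh α U K i) x) =
            -(conj (d j i x) - (nb k α j (hh α U K i) x - nb k α i (hh α U K j) x)) := by ring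
        rw [h3, norm_neg]
        exact bd j i x
      · simp only [if_neg h2]
        have h3 : i = j := le_antisymm (not_lt.mp h2) (not_lt.mp h1)
        subst h3
        rw [sub_self, sub_zero, norm_zero]
        positivity

/-! ### the potential -/

theorem pot_eq (k : ℕ) (α : Col N) (f : Fin 4 → Fin 4 → Site n L l → ℂ) (j : Fin 4) :
    pot k α f j = Gr n L l k α (∑ i, nbsL n L l k α i (f i j)) := by
  have h1 : (fun x => ∑ i : Fin 4, nbs k α i (f i j) x) = ∑ i, nbsL n L l k α i (f i j) := by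
    funext x
    rw [Finset.sum_apply]
    rfl
  unfold pot
  rw [h1]

theorem pot_sub (k : ℕ) (α : Col N) (f g : Fin 4 → Fin 4 → Site n L l → ℂ) (j : Fin 4) :
    pot k α (fun i j x => f i j x - g i j x) j = pot k α f j - pot k α g j := by
  rw [pot_eq, pot_eq, pot_eq, ← map_sub, ← Finset.sum_sub_distrib]
  congr 1
  refine Finset.sum_congr rfl fun i _ => ?_
  rw [← map_sub]
  rfl

/-- the potential as a linear map -/
noncomputable def potL (k : ℕ) (α : Col N) (j : Fin 4) (y : Site n L l) :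
    (Fin 4 → Fin 4 → Site n L l → ℂ) →ₗ[ℝ] ℂ where
  toFun f := pot k α f j y
  map_add' f g := by
    rw [pot_eq, pot_eq, pot_eq]
    simp only [Pi.add_apply, map_add, Finset.sum_add_distrib]
  map_smul' r f := by
    rw [pot_eq, pot_eq]
    have h1 : ∀ i, nbsL n L l k α i ((r • f) i j) = (r : ℂ) • nbsL n L l k α i (f i j) := by
      intro i
      rw [← map_smul]
      rfl
    simp only [h1]
    rw [← Finset.smul_sum, map_smul, RingHom.id_apply, Pi.smul_apply, smul_eq_mul,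
      Complex.real_smul]

theorem hasDerivAt_pot [NeZero n] [NeZero L] [NeZero l] (k : ℕ) (α : Col N)
    (f : ℝ → Fin 4 → Fin 4 → Site n L l → ℂ) (D : Fin 4 → Fin 4 → Site n L l → ℂ)
    (h : ∀ i j x, HasDerivAt (fun t => f t i j x) (D i j x) 0) (j : Fin 4) (y : Site n L l) :
    HasDerivAt (fun t => pot k α (f t) j y) (pot k α D j y) 0 := by
  have h1 : HasDerivAt f D 0 := by
    rw [hasDerivAt_pi]
    intro i
    rw [hasDerivAt_pi]
    intro j
    rw [hasDerivAt_pi]
    intro x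
    exact h i j x
  exact (LinearMap.toContinuousLinearMap (potL k α j y)).hasFDerivAt.comp_hasDerivAt (0 : ℝ) h1

theorem pot_bound (k : ℕ) (α : Col N) {B : ℝ}
    (hG : ∀ (h : Site n L l → ℂ) (M : ℝ), (∀ x, ‖h x‖ ≤ M) →
      ∀ x, ‖Gr n L l k α h x‖ ≤ B * M)
    (f : Fin 4 → Fin 4 → Site n L l → ℂ) {M : ℝ} (hf : ∀ i j x, ‖f i j x‖ ≤ M) (j : Fin 4)
    (y : Site n L l) : ‖pot k α f j y‖ ≤ B * (8 * M) := by
  unfold pot
  refine hG _ _ (fun x => ?_) y
  refine (norm_sum_le _ _).trans ?_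
  have h1 : ∀ i ∈ (Finset.univ : Finset (Fin 4)), ‖nbs k α i (f i j) x‖ ≤ 2 * M := by
    intro i _
    unfold nbs
    refine (norm_sub_le _ _).trans ?_
    rw [norm_mul, RCLike.norm_conj, rh_norm, one_mul]
    linarith [hf i j (x - dir i), hf i j x]
  refine (Finset.sum_le_sum h1).trans ?_
  rw [Finset.sum_const, Finset.card_univ, Fintype.card_fin, nsmul_eq_mul]
  push_cast
  linarith

theorem pot_model [NeZero n] [NeZero L] [NeZero l] (k : ℕ) (α : Col N)
    (h : Fin 4 → Site n L l → ℂ) (c : ℂ) (i₀ : Fin 4) (y : Site n L l)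
    (h1 : h i₀ = c • Pi.single y 1) (h2 : ∀ i, i ≠ i₀ → h i = 0) :
    pot k α (fun i j x => nb k α i (h j) x - nb k α j (h i) x) i₀ y = c * gg k α i₀ y := by
  have e1 : ∑ i, nbsL n L l k α i ((fun i j x => nb k α i (h j) x - nb k α j (h i) x) i i₀) =
      ∑ i ∈ (Finset.univ : Finset (Fin 4)).erase i₀,
        c • nbs k α i (nb k α i (Pi.single y 1)) := by
    rw [← Finset.sum_erase Finset.univ (a := i₀)]
    · refine Finset.sum_congr rfl fun i hi => ?_
      have hi' : i ≠ i₀ := Finset.ne_of_mem_erase hi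
      have e2 : (fun x => nb k α i (h i₀) x - nb k α i₀ (h i) x) =
          c • nb k α i (Pi.single y 1) := by
        funext x
        rw [h1, h2 i hi']
        have e3 : nb k α i (c • (Pi.single y 1 : Site n L l → ℂ)) =
            c • nb k α i (Pi.single y 1) :=
          (nbL n L l k α i).map_smul c _
        rw [e3]
        simp [nb]
      show nbsL n L l k α i (fun x => nb k α i (h i₀) x - nb k α i₀ (h i) x) = _
      rw [e2, map_smul]
      rfl
    · have e2 : (fun x => nb k α i₀ (h i₀) x - nb k α i₀ (h i₀) x) = 0 := by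
        funext x
        rw [sub_self]
        rfl
      show nbsL n L l k α i₀ (fun x => nb k α i₀ (h i₀) x - nb k α i₀ (h i₀) x) = 0
      rw [e2, map_zero]
  rw [pot_eq, e1, map_sum, Finset.sum_apply]
  unfold gg
  rw [Finset.mul_sum]
  refine Finset.sum_congr rfl fun i _ => ?_
  rw [map_smul, Pi.smul_apply, smul_eq_mul, Gr_nbs]

theorem norm_pr_le [NeZero N] (A : Mt N) : ‖pr A‖ ≤ 2 * N * ‖A‖ := by
  have hN1 : (1 : ℝ) ≤ N := by exact_mod_cast Nat.pos_of_neZero N
  rw [pr_eq]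
  refine (norm_sub_le _ _).trans ?_
  have h1 : ‖(1 / 2 : ℂ) • (A - Aᴴ)‖ ≤ ‖A‖ := by
    rw [norm_smul]
    have h2 := norm_sub_le A Aᴴ
    rw [frobenius_norm_conjTranspose] at h2
    have h3 : ‖(1 / 2 : ℂ)‖ = 1 / 2 := by simp
    rw [h3]
    linarith
  have h4 : ‖sc A • (1 : Mt N)‖ ≤ ‖A‖ * N := by
    rw [norm_smul]
    refine mul_le_mul ?_ (norm_SU_le (1 : SU N)) (norm_nonneg _) (norm_nonneg _)
    refine (norm_sc_le A).trans ?_
    rw [div_le_iff₀ (by linarith), mul_comm]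
    exact norm_tr_le A
  nlinarith [norm_nonneg A]

theorem hasDerivAt_Kf (hQ1 : S_Q1) [NeZero N] [NeZero n] [NeZero L] [NeZero l] (k : ℕ)
    (q : ZMod n × ZMod L → ZMod N) {B : ℝ} (hB : 0 ≤ B)
    (hG : ∀ α : Col N, α ≠ (0, 0) → ∀ (h : Site n L l → ℂ) (M : ℝ), (∀ x, ‖h x‖ ≤ M) →
      ∀ x, ‖Gr n L l k α h x‖ ≤ B * M)
    (U : Link n L l → SU N) (e : Link n L l) (A : Mt N) (hA : SkT A) :
    ∃ D : Mt N, HasDerivAt (fun t : ℝ => Kf k q (fg (Pi.single e A) t U) e) D 0 ∧
      ‖D - Kl k U e A‖ ≤ 192 * N ^ 6 * B * l * ss k q U * ‖A‖ := by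
  obtain ⟨i₀, y⟩ := e
  set K : Link n L l → Mt N := Pi.single (i₀, y) A with hKdef
  have hK : ∀ e, SkT (K e) := skT_single hA (i₀, y)
  have hM : ∀ e, ‖K e‖ ≤ ‖A‖ := by
    intro e
    by_cases h : e = (i₀, y)
    · rw [h, hKdef, Pi.single_eq_same]
    · rw [hKdef, Pi.single_eq_of_ne h, norm_zero]
      exact norm_nonneg _
  have hM0 := norm_nonneg A
  have hs := ss_nonneg k q U
  have hN1 : (1 : ℝ) ≤ N := by exact_mod_cast Nat.pos_of_neZero N
  have hN0 : (0 : ℝ) ≤ N := by linarith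
  have hl1 : (1 : ℝ) ≤ l := by exact_mod_cast Nat.pos_of_neZero l
  choose E hE bE using fun α : Col N => hasDerivAt_Dr U hK hM α y
  choose D hD bD using fun α : Col N => hasDerivAt_ps hQ1 k q U hK hM hM0 α
  have hpot : ∀ α : Col N, HasDerivAt (fun t : ℝ => pot k α (ps k q α (fg K t U)) i₀ y)
      (pot k α (D α) i₀ y) 0 := fun α =>
    hasDerivAt_pot k α (fun t => ps k q α (fg K t U)) (D α) (hD α) i₀ y
  have hterm : ∀ α : Col N, HasDerivAt (fun t : ℝ =>
      ((-(1 / N) : ℂ) * pot k α (ps k q α (fg K t U)) i₀ y) • (Dr α (fg K t U) y).1)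
      (((-(1 / N) : ℂ) * pot k α (ps k q α U) i₀ y) • E α +
        ((-(1 / N) : ℂ) * pot k α (D α) i₀ y) • (Dr α U y).1) 0 := by
    intro α
    have h1 := ((hpot α).const_mul (-(1 / N) : ℂ)).smul (hE α)
    simp only [fg_zero] at h1
    exact h1
  have hsum := HasDerivAt.fun_sum (u := (Finset.univ : Finset (Col N)).erase (0, 0))
    fun α _ => hterm α
  have hpr := hasDerivAt_pr _ _ hsum
  refine ⟨_, hpr, ?_⟩
  unfold Kl
  have hprs : ∀ X Y : Mt N, pr X - pr Y = pr (X - Y) := fun X Y => (pr_sub X Y).symm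
  rw [hprs, ← Finset.sum_sub_distrib]
  refine (norm_pr_le _).trans ?_
  have hterm2 : ∀ α ∈ (Finset.univ : Finset (Col N)).erase (0, 0),
      ‖((-(1 / N) : ℂ) * pot k α (ps k q α U) i₀ y) • E α +
        ((-(1 / N) : ℂ) * pot k α (D α) i₀ y) • (Dr α U y).1 -
        (-(1 / N) * gg k α (i₀, y).1 (i₀, y).2 * conj (trace ((Dr α U (i₀, y).2).1 * A)) : ℂ) •
          (Dr α U (i₀, y).2).1‖ ≤ 96 * N ^ 3 * B * l * ss k q U * ‖A‖ := by
    intro α hα
    have hα0 : α ≠ (0, 0) := Finset.ne_of_mem_erase hα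
    have hG' := hG α hα0
    set c : ℂ := conj (trace ((Dr α U y).1 * A)) with hc
    have hmod := pot_model k α (hh α U K) c i₀ y
      (by
        funext x
        unfold hh
        by_cases hx : x = y
        · subst hx
          rw [hKdef, Pi.single_eq_same, Pi.smul_apply, Pi.single_eq_same, smul_eq_mul, mul_one]
        · have h1 : ((i₀, x) : Link n L l) ≠ (i₀, y) := fun h => hx (Prod.mk.inj h).2
          rw [hKdef, Pi.single_eq_of_ne h1, Pi.smul_apply, Pi.single_eq_of_ne hx]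
          simp)
      (by
        intro i hi
        funext x
        unfold hh
        have h1 : ((i, x) : Link n L l) ≠ (i₀, y) := fun h => hi (Prod.mk.inj h).1
        rw [hKdef, Pi.single_eq_of_ne h1]
        simp)
    have hdiff := pot_bound k α hG' (fun i j x => D α i j x -
      (nb k α i (hh α U K j) x - nb k α j (hh α U K i) x)) (bD α) i₀ y
    have hsubst := congrFun (pot_sub k α (D α)
      (fun i j x => nb k α i (hh α U K j) x - nb k α j (hh α U K i) x) i₀) y
    rw [hsubst, Pi.sub_apply, hmod] at hdiff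
    have hpsb : ∀ i j x, ‖ps k q α U i j x‖ ≤ N ^ 2 * ss k q U := by
      have hph : ∀ i j x, ‖ph2 k q α U i j x‖ ≤ N ^ 2 * ss k q U := by
        intro i j x
        unfold ph2
        refine (norm_tr_mul_le _ _).trans ?_
        calc (N : ℝ) * (‖(Dr α U x).1‖ * ‖Fc k q U x i j‖) ≤ N * (N * ss k q U) := by
              gcongr
              · exact norm_SU_le _
              · exact Fc_le k q U x i j
          _ = _ := by ring
      intro i j x
      unfold ps
      split_ifs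
      · rw [RCLike.norm_conj]; exact hph i j x
      · rw [norm_neg, RCLike.norm_conj]; exact hph j i x
      · rw [norm_zero]; positivity
    have hpb := pot_bound k α hG' (ps k q α U) hpsb i₀ y
    have hinv : ‖(-(1 / N) : ℂ)‖ ≤ 1 := by
      rw [norm_neg, norm_div, norm_one, Complex.norm_natCast, div_le_one (by linarith)]
      exact hN1
    have e1 : ((-(1 / N) : ℂ) * pot k α (ps k q α U) i₀ y) • E α +
        ((-(1 / N) : ℂ) * pot k α (D α) i₀ y) • (Dr α U y).1 -
        (-(1 / N) * gg k α (i₀, y).1 (i₀, y).2 * conj (trace ((Dr α U (i₀, y).2).1 * A)) : ℂ) •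
          (Dr α U (i₀, y).2).1 =
        ((-(1 / N) : ℂ) * pot k α (ps k q α U) i₀ y) • E α +
        ((-(1 / N) : ℂ) * (pot k α (D α) i₀ y - c * gg k α i₀ y)) • (Dr α U y).1 := by
      rw [add_sub_assoc, ← sub_smul]
      congr 2
      ring
    rw [e1]
    refine (norm_add_le _ _).trans ?_
    rw [norm_smul, norm_smul, norm_mul, norm_mul]
    calc ‖(-(1 / N) : ℂ)‖ * ‖pot k α (ps k q α U) i₀ y‖ * ‖E α‖ +
          ‖(-(1 / N) : ℂ)‖ * ‖pot k α (D α) i₀ y - c * gg k α i₀ y‖ * ‖(Dr α U y).1‖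
        ≤ 1 * (B * (8 * (N ^ 2 * ss k q U))) * (2 * N * l * ‖A‖) +
          1 * (B * (8 * (10 * N ^ 2 * l * ‖A‖ * ss k q U))) * N := by
          refine add_le_add ?_ ?_
          · exact mul_le_mul (mul_le_mul hinv hpb (norm_nonneg _) zero_le_one) (bE α)
              (norm_nonneg _) (by positivity)
          · exact mul_le_mul (mul_le_mul hinv hdiff (norm_nonneg _) zero_le_one)
              (norm_SU_le _) (norm_nonneg _) (by positivity)
      _ = 96 * N ^ 3 * B * l * ss k q U * ‖A‖ := by ring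
  have hsumb : ‖∑ α ∈ (Finset.univ : Finset (Col N)).erase (0, 0),
      (((-(1 / N) : ℂ) * pot k α (ps k q α U) i₀ y) • E α +
        ((-(1 / N) : ℂ) * pot k α (D α) i₀ y) • (Dr α U y).1 -
        (-(1 / N) * gg k α (i₀, y).1 (i₀, y).2 * conj (trace ((Dr α U (i₀, y).2).1 * A)) : ℂ) •
          (Dr α U (i₀, y).2).1)‖ ≤ N ^ 2 * (96 * N ^ 3 * B * l * ss k q U * ‖A‖) := by
    refine (norm_sum_le _ _).trans ((Finset.sum_le_sum hterm2).trans ?_)
    rw [Finset.sum_const, nsmul_eq_mul]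
    refine mul_le_mul_of_nonneg_right ?_ (by positivity)
    have h1 : ((Finset.univ : Finset (Col N)).erase (0, 0)).card ≤ N ^ 2 := by
      refine (Finset.card_le_card (Finset.erase_subset _ _)).trans ?_
      rw [Finset.card_univ, Fintype.card_prod, Fintype.card_fin, sq]
    exact_mod_cast h1
  calc 2 * (N : ℝ) * _ ≤ 2 * N * (N ^ 2 * (96 * N ^ 3 * B * l * ss k q U * ‖A‖)) :=
        mul_le_mul_of_nonneg_left hsumb (by positivity)
    _ = 192 * N ^ 6 * B * l * ss k q U * ‖A‖ := by ring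

theorem t_Q8 (hQ1 : S_Q1) (hQ5c : S_Q5c) : S_Q8 := by
  intro N _
  obtain ⟨C, p, hC, h⟩ := hQ5c N
  have hN1 : (1 : ℝ) ≤ N := by exact_mod_cast Nat.pos_of_neZero N
  refine ⟨192 * N ^ 6 * C, p + 1, by positivity, ?_⟩
  intro n L l k _ _ _ hk q
  have hv := vol_ge (n := n) (L := L) (l := l)
  have hv0 : (0 : ℝ) ≤ vol n L l := by linarith [hv.1]
  have key : ∀ (U : Link n L l → SU N) (e : Link n L l) (A : Mt N), ∃ D : Mt N, SkT A →
      (HasDerivAt (fun t : ℝ => Kf k q (fg (Pi.single e A) t U) e) D 0 ∧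
      ‖D - Kl k U e A‖ ≤ 192 * (N : ℝ) ^ 6 * C * vol n L l ^ (p + 1) * ss k q U * ‖A‖) := by
    intro U e A
    by_cases hA : SkT A
    · obtain ⟨D, hD, bD⟩ := hasDerivAt_Kf hQ1 k q (B := C * vol n L l ^ p) (by positivity)
        (fun α hα => (h n L l k hk α hα).2.2) U e A hA
      refine ⟨D, fun _ => ⟨hD, bD.trans ?_⟩⟩
      have hs := ss_nonneg k q U
      calc 192 * (N : ℝ) ^ 6 * (C * vol n L l ^ p) * l * ss k q U * ‖A‖
          ≤ 192 * (N : ℝ) ^ 6 * (C * vol n L l ^ p) * vol n L l * ss k q U * ‖A‖ := by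
            gcongr
            exact hv.2
        _ = 192 * (N : ℝ) ^ 6 * C * vol n L l ^ (p + 1) * ss k q U * ‖A‖ := by ring
    · exact ⟨0, fun h => absurd h hA⟩
  choose Kd hKd using key
  exact ⟨Kd, fun U e A hA => hKd U e A hA⟩

end Run7.h771.QC
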