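import Pool.Agent.Run7.h771.QC.Fg
import Pool.Agent.Run7.h370.QC.Bas

/-!
# The derivative of the dressings, and the twisted differences
-/

open MeasureTheory Matrix Filter Topology
open scoped Matrix.Norms.Frobenius ComplexConjugate

namespace Run7.h771.QC

open Run7.h4.YM Run7.h630.ML Run7.h630.MQ Run7.h630.QC Run7.h771.MQ Run7.h370.QC Run7.h370.MQ

variable {N n L l : ℕ}

theorem sq_eq_of {A B : Mt N} (h : ‖A‖ ^ 2 = ‖B‖ ^ 2) : ‖A‖ = ‖B‖ :=
  (sq_eq_sq₀ (norm_nonneg _) (norm_nonneg _)).mp h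

theorem norm_mul_SU (A : Mt N) (g : SU N) : ‖A * g.1‖ = ‖A‖ := by
  refine sq_eq_of ?_
  rw [norm_sq_tr, norm_sq_tr, conjTranspose_mul]
  congr 2
  calc A * g.1 * (g.1ᴴ * Aᴴ) = A * (g.1 * g.1ᴴ) * Aᴴ := by simp only [mul_assoc]
    _ = A * Aᴴ := by rw [Run7.h370.MQ.mul_star_self', mul_one]

theorem norm_SU_mul (A : Mt N) (g : SU N) : ‖g.1 * A‖ = ‖A‖ := by
  refine sq_eq_of ?_
  rw [norm_sq_tr, norm_sq_tr, conjTranspose_mul]
  congr 1
  calc trace (g.1 * A * (Aᴴ * g.1ᴴ)) = trace (g.1 * (A * Aᴴ) * g.1ᴴ) := by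
        simp only [mul_assoc]
    _ = trace (A * Aᴴ) := trace_cj g _

/-- the matrices of the links in the direction `d` over `x` -/
def ud (d : Fin 4) (U : Link n L l → SU N) (x : Site n L l) (s : ℕ) : Mt N :=
  (U (d, x + s • dir d)).1

/-- the loop in the direction `d` -/
def lo (d : Fin 4) (U : Link n L l → SU N) (x : Site n L l) : SU N :=
  ((List.range l).map fun t : ℕ => U (d, x + t • dir d)).prod

theorem lo_coe (d : Fin 4) (U : Link n L l → SU N) (x : Site n L l) :
    (lo d U x).1 = seg (ud d U x) 0 l := by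
  unfold lo seg ud
  rw [coe_list_prod, List.map_map]
  congr 1
  refine List.map_congr_left fun s _ => ?_
  simp only [Function.comp, zero_add]

theorem seg_SU (d : Fin 4) (U : Link n L l → SU N) (x : Site n L l) (a b : ℕ) :
    ∃ g : SU N, seg (ud d U x) a b = g.1 := by
  refine ⟨((List.range b).map fun t : ℕ => U (d, x + (a + t) • dir d)).prod, ?_⟩
  unfold seg ud
  rw [coe_list_prod, List.map_map]
  rfl

theorem ud_fg (d : Fin 4) (K : Link n L l → Mt N) (t : ℝ) (U : Link n L l → SU N)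
    (x : Site n L l) (s : ℕ) :
    ud d (fg K t U) x s = (ex t (K (d, x + s • dir d))).1 * ud d U x s := by
  unfold ud fg
  rw [coe_mul']

theorem hasDerivAt_lo (d : Fin 4) (U : Link n L l → SU N) {K : Link n L l → Mt N}
    (hK : ∀ e, SkT (K e)) {M : ℝ} (hM : ∀ e, ‖K e‖ ≤ M) (x : Site n L l) :
    ∃ D : Mt N, HasDerivAt (fun t : ℝ => (lo d (fg K t U) x).1) D 0 ∧ ‖D‖ ≤ l * M := by
  have hM' : ∀ s, HasDerivAt (fun t => ud d (fg K t U) x s)
      (K (d, x + s • dir d) * ud d (fg K 0 U) x s) 0 := by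
    intro s
    have h1 : (fun t => ud d (fg K t U) x s) =
        fun t => (ex t (K (d, x + s • dir d))).1 * ud d U x s := by
      funext t; exact ud_fg d K t U x s
    rw [h1, fg_zero]
    exact (hasDerivAt_ex (hK _).1 (hK _).2).mul_const _
  have h1 := hasDerivAt_seg (fun t s => ud d (fg K t U) x s)
    (fun s => K (d, x + s • dir d)) hM' l
  have h2 : (fun t : ℝ => (lo d (fg K t U) x).1) =
      fun t => seg (fun s => ud d (fg K t U) x s) 0 l := by
    funext t
    exact lo_coe d _ x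
  refine ⟨_, by rw [h2]; exact h1, ?_⟩
  refine (norm_sum_le _ _).trans ?_
  have h3 : ∀ τ ∈ Finset.range l, ‖seg (fun s => ud d (fg K 0 U) x s) 0 τ *
      K (d, x + τ • dir d) * seg (fun s => ud d (fg K 0 U) x s) τ (l - τ)‖ ≤ M := by
    intro τ _
    obtain ⟨g, hg⟩ := seg_SU d (fg K 0 U) x 0 τ
    obtain ⟨g', hg'⟩ := seg_SU d (fg K 0 U) x τ (l - τ)
    have e1 : (fun s => ud d (fg K 0 U) x s) = ud d (fg K 0 U) x := rfl
    rw [e1, hg, hg', norm_mul_SU, norm_SU_mul]
    exact hM _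
  refine (Finset.sum_le_sum h3).trans ?_
  rw [Finset.sum_const, Finset.card_range, nsmul_eq_mul]

theorem hasDerivAt_pow_SU (f : ℝ → SU N) {D : Mt N} (h : HasDerivAt (fun t => (f t).1) D 0)
    (c : ℕ) : ∃ D' : Mt N, HasDerivAt (fun t => (f t ^ c).1) D' 0 ∧ ‖D'‖ ≤ c * ‖D‖ := by
  have h1 := hasDerivAt_pow_ring _ _ h c
  refine ⟨_, h1, ?_⟩
  refine (norm_sum_le _ _).trans ?_
  have h3 : ∀ r ∈ Finset.range c, ‖(f 0).1 ^ r * D * (f 0).1 ^ (c - 1 - r)‖ ≤ ‖D‖ := by
    intro r _
    rw [← coe_pow', ← coe_pow', norm_mul_SU, norm_SU_mul]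
  refine (Finset.sum_le_sum h3).trans ?_
  rw [Finset.sum_const, Finset.card_range, nsmul_eq_mul]

/-- the derivative of the dressing -/
theorem hasDerivAt_Dr (U : Link n L l → SU N) {K : Link n L l → Mt N}
    (hK : ∀ e, SkT (K e)) {M : ℝ} (hM : ∀ e, ‖K e‖ ≤ M) (α : Col N)
    (x : Site n L l) :
    ∃ D : Mt N, HasDerivAt (fun t : ℝ => (Dr α (fg K t U) x).1) D 0 ∧
      ‖D‖ ≤ 2 * N * l * M := by
  obtain ⟨D1, h1, b1⟩ := hasDerivAt_lo 2 U hK hM x
  obtain ⟨D2, h2, b2⟩ := hasDerivAt_lo 3 U hK hM x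
  obtain ⟨D3, h3, b3⟩ := hasDerivAt_pow_SU (fun t => lo 2 (fg K t U) x) h1 α.1
  obtain ⟨D4, h4, b4⟩ := hasDerivAt_pow_SU (fun t => lo 3 (fg K t U) x) h2 α.2
  refine ⟨_, h3.mul h4, ?_⟩
  refine (norm_add_le _ _).trans ?_
  rw [norm_mul_SU, norm_SU_mul]
  have hα1 : ((α.1 : ℕ) : ℝ) ≤ N := by exact_mod_cast α.1.2.le
  have hα2 : ((α.2 : ℕ) : ℝ) ≤ N := by exact_mod_cast α.2.2.le
  have e1 : ‖D3‖ ≤ N * (l * M) := b3.trans (mul_le_mul hα1 b1 (norm_nonneg _) (Nat.cast_nonneg _))
  have e2 : ‖D4‖ ≤ N * (l * M) := b4.trans (mul_le_mul hα2 b2 (norm_nonneg _) (Nat.cast_nonneg _))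
  calc ‖D3‖ + ‖D4‖ ≤ N * (l * M) + N * (l * M) := add_le_add e1 e2
    _ = 2 * N * l * M := by ring

/-! ### the twisted differences -/

theorem rh_shift (k : ℕ) (α : Col N) (x : Site n L l) {m j : Fin 4} (h : m ≠ j) :
    rh k α (x + dir m) j = rh k α x j := by
  unfold rh
  have h2 : j = 2 → (x + dir m : Site n L l).2.2.1 = x.2.2.1 := by
    rintro rfl
    fin_cases m <;> simp_all [dir]
  have h3 : j = 3 → (x + dir m : Site n L l).2.2.2 = x.2.2.2 := by
    rintro rfl
    fin_cases m <;> simp_all [dir]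
  by_cases hj2 : j = 2
  · rw [h2 hj2]
    simp [hj2]
  · by_cases hj3 : j = 3
    · rw [h3 hj3]
      simp [hj3]
    · simp [hj2, hj3]

theorem rh_shift' (k : ℕ) (α : Col N) (x : Site n L l) {m j : Fin 4} (h : m ≠ j) :
    rh k α (x - dir m) j = rh k α x j := by
  have := rh_shift k α (x - dir m) h
  rw [sub_add_cancel] at this
  exact this.symm

/-- the twisted difference as a linear map -/
noncomputable def nbL (n L l : ℕ) (k : ℕ) (α : Col N) (j : Fin 4) :
    (Site n L l → ℂ) →ₗ[ℂ] (Site n L l → ℂ) where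
  toFun h := nb k α j h
  map_add' f h := by
    funext x
    simp only [nb, Pi.add_apply]
    ring
  map_smul' c h := by
    funext x
    simp only [nb, Pi.smul_apply, smul_eq_mul, RingHom.id_apply]
    ring

/-- the adjoint as a linear map -/
noncomputable def nbsL (n L l : ℕ) (k : ℕ) (α : Col N) (j : Fin 4) :
    (Site n L l → ℂ) →ₗ[ℂ] (Site n L l → ℂ) where
  toFun h := nbs k α j h
  map_add' f h := by
    funext x
    simp only [nbs, Pi.add_apply]
    ring
  map_smul' c h := by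
    funext x
    simp only [nbs, Pi.smul_apply, smul_eq_mul, RingHom.id_apply]
    ring

theorem nbs_nb_comm (k : ℕ) (α : Col N) (j m : Fin 4) (h : Site n L l → ℂ) (x : Site n L l) :
    nbs k α m (nb k α j h) x = nb k α j (nbs k α m h) x := by
  simp only [nbs, nb]
  by_cases hjm : j = m
  · subst hjm
    have h1 := conj_mul_self (rh_norm k α (x - dir j) j)
    have h2 := mul_conj_self (rh_norm k α x j)
    rw [sub_add_cancel, add_sub_cancel_right]
    linear_combination (h x) * h1 - (h x) * h2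
  · have e1 : rh k α (x - dir m) j = rh k α x j := rh_shift' k α x (Ne.symm hjm)
    have e2 : x + dir j - dir m = x - dir m + dir j := by abel
    have e3 : rh k α (x - dir m + dir j) m = rh k α (x - dir m) m := rh_shift k α _ hjm
    rw [e1, e2, e3]
    ring

theorem nbs_nbs_comm (k : ℕ) (α : Col N) (j m : Fin 4) (h : Site n L l → ℂ)
    (x : Site n L l) :
    nbs k α m (nbs k α j h) x = nbs k α j (nbs k α m h) x := by
  simp only [nbs]
  by_cases hjm : j = m
  · subst hjm
    rfl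
  · have e1 : rh k α (x - dir m - dir j) j = rh k α (x - dir j) j := by
      rw [sub_right_comm]
      exact rh_shift' k α _ (Ne.symm hjm)
    have e3 : rh k α (x - dir j - dir m) m = rh k α (x - dir m) m := by
      rw [sub_right_comm]
      exact rh_shift' k α _ hjm
    rw [e1, e3, sub_right_comm x (dir j) (dir m)]
    ring

theorem nbsL_La (k : ℕ) (α : Col N) (m : Fin 4) :
    nbsL n L l k α m * La n L l k α = La n L l k α * nbsL n L l k α m := by
  refine LinearMap.ext fun h => ?_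
  funext x
  show nbs k α m (La n L l k α h) x = La n L l k α (nbs k α m h) x
  have h1 : (La n L l k α h) = ∑ j : Fin 4, nbs k α j (nb k α j h) := by
    funext y
    rw [Finset.sum_apply]
    rfl
  have h2 : ∀ g : Site n L l → ℂ, nbs k α m g = nbsL n L l k α m g := fun _ => rfl
  rw [h1, h2, map_sum, Finset.sum_apply]
  show _ = ∑ j : Fin 4, nbs k α j (nb k α j (nbs k α m h)) x
  refine Finset.sum_congr rfl fun j _ => ?_
  show nbs k α m (nbs k α j (nb k α j h)) x = nbs k α j (nb k α j (nbs k α m h)) x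
  rw [nbs_nbs_comm]
  have h3 : nbs k α m (nb k α j h) = nb k α j (nbs k α m h) := by
    funext y
    exact nbs_nb_comm k α j m h y
  rw [h3]

theorem Gr_nbs (k : ℕ) (α : Col N) (m : Fin 4) (h : Site n L l → ℂ) :
    Gr n L l k α (nbs k α m h) = nbs k α m (Gr n L l k α h) := by
  have key : Gr n L l k α * nbsL n L l k α m = nbsL n L l k α m * Gr n L l k α := by
    unfold Gr
    by_cases hu : IsUnit (La n L l k α : Module.End ℂ (Site n L l → ℂ))
    · obtain ⟨u, hu⟩ := hu
      rw [← hu, Ring.inverse_unit]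
      have h1 := nbsL_La (n := n) (L := L) (l := l) k α m
      rw [← hu] at h1
      calc (↑u⁻¹ : Module.End ℂ (Site n L l → ℂ)) * nbsL n L l k α m
          = ↑u⁻¹ * (nbsL n L l k α m * ↑u) * ↑u⁻¹ := by
            rw [mul_assoc, mul_assoc, Units.mul_inv, mul_one]
        _ = _ := by rw [h1, ← mul_assoc, Units.inv_mul, one_mul]
    · rw [Ring.inverse_non_unit _ hu, zero_mul, mul_zero]
  exact LinearMap.congr_fun key h

end Run7.h771.QC
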