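import Pool.Agent.Run7.h630.QC.Iface
import Pool.Agent.Run7.h771.MQ.C4
import Pool.Agent.Run7.h771.MQ.C23

/-!
# The flow of all links, and the derivatives of the plaquettes and of the action
-/

open MeasureTheory Matrix Filter Topology
open scoped Matrix.Norms.Frobenius ComplexConjugate

namespace Run7.h771.QC

open Run7.h4.YM Run7.h630.ML Run7.h630.MQ Run7.h630.QC Run7.h771.MQ

variable {N n L l : ℕ}

theorem fg_zero (K : Link n L l → Mt N) (U : Link n L l → SU N) : fg K 0 U = U := by
  funext e
  unfold fg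
  rw [ex_zero, one_mul]

theorem fg_add {K : Link n L l → Mt N} (hK : ∀ e, SkT (K e)) (s t : ℝ)
    (U : Link n L l → SU N) : fg K (s + t) U = fg K s (fg K t U) := by
  funext e
  unfold fg
  rw [ex_add (hK e).1 (hK e).2, mul_assoc]

theorem fg_eq_mul (K : Link n L l → Mt N) (t : ℝ) :
    fg K t = fun U => (fun e => ex t (K e)) * U := rfl

theorem continuous_fg (K : Link n L l → Mt N) (t : ℝ) :
    Continuous (fg K t : (Link n L l → SU N) → (Link n L l → SU N)) := by
  rw [fg_eq_mul]
  exact continuous_const.mul continuous_id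

theorem skT_single {A : Mt N} (hA : SkT A) (e : Link n L l) (e' : Link n L l) :
    SkT ((Pi.single e A : Link n L l → Mt N) e') := by
  by_cases h : e' = e
  · subst h
    rw [Pi.single_eq_same]
    exact hA
  · rw [Pi.single_eq_of_ne h]
    exact ⟨by simp, by simp⟩

/-- the derivative along the flow is measurable -/
theorem measurable_deriv [NeZero n] [NeZero L] [NeZero l] [MeasurableSpace (SU N)]
    [BorelSpace (SU N)] (K : Link n L l → Mt N) (f Df : (Link n L l → SU N) → ℝ)
    (hf : Continuous f) (hd : ∀ U, HasDerivAt (fun t : ℝ => f (fg K t U)) (Df U) 0) :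
    Measurable Df := by
  have h0 : Tendsto (fun m : ℕ => (1 / ((m : ℝ) + 1))) atTop (𝓝[≠] 0) := by
    rw [tendsto_nhdsWithin_iff]
    refine ⟨tendsto_one_div_add_atTop_nhds_zero_nat, Eventually.of_forall fun m => ?_⟩
    rw [Set.mem_compl_iff, Set.mem_singleton_iff]
    positivity
  refine measurable_of_tendsto_metrizable (f := fun (m : ℕ) U =>
    (1 / ((m : ℝ) + 1))⁻¹ * (f (fg K (1 / ((m : ℝ) + 1)) U) - f U)) (fun m => ?_) ?_
  · refine Measurable.const_mul ?_ _
    exact ((hf.comp (continuous_fg K _)).measurable).sub hf.measurable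
  · rw [tendsto_pi_nhds]
    intro U
    have h1 := (hd U).tendsto_slope_zero.comp h0
    refine h1.congr fun m => ?_
    simp only [Function.comp, zero_add, fg_zero, smul_eq_mul]

/-- integration by parts -/
theorem ibp [NeZero n] [NeZero L] [NeZero l] [MeasurableSpace (SU N)]
    [BorelSpace (SU N)] (μ : Measure (SU N)) [IsProbabilityMeasure μ] [μ.IsHaarMeasure]
    {K : Link n L l → Mt N} (hK : ∀ e, SkT (K e)) (f Df : (Link n L l → SU N) → ℝ)
    (hf : Continuous f) (C : ℝ) (hC : ∀ U, |Df U| ≤ C)
    (hd : ∀ U, HasDerivAt (fun t : ℝ => f (fg K t U)) (Df U) 0) :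
    ∫ U, Df U ∂(Measure.pi fun _ : Link n L l => μ) = 0 := by
  have hDf := measurable_deriv K f Df hf hd
  set ν : Measure (Link n L l → SU N) := Measure.pi fun _ : Link n L l => μ with hν
  have hmp : ∀ t : ℝ, MeasurePreserving (fg K t) ν ν := by
    intro t
    rw [fg_eq_mul]
    exact measurePreserving_mul_left ν _
  have hd' : ∀ (U : Link n L l → SU N) (t : ℝ),
      HasDerivAt (fun s => f (fg K s U)) (Df (fg K t U)) t := by
    intro U t
    have h1 := hd (fg K t U)
    have h2 : (fun s : ℝ => f (fg K s U)) = fun s => (fun r => f (fg K r (fg K t U))) (s - t) := by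
      funext s
      simp only
      rw [← fg_add hK, sub_add_cancel]
    rw [h2]
    have h3 : HasDerivAt (fun r => f (fg K r (fg K t U))) (Df (fg K t U)) (t - t) := by
      rw [sub_self]; exact h1
    simpa using h3.comp_sub_const t t
  obtain ⟨C', hC'⟩ : ∃ C : ℝ, ∀ U, ‖f U‖ ≤ C := by
    obtain ⟨C, hC⟩ := (isCompact_univ (X := Link n L l → SU N)).exists_bound_of_continuousOn
      hf.continuousOn
    exact ⟨C, fun U => hC U (Set.mem_univ U)⟩
  have hcont := fun t : ℝ => continuous_fg K t
  have hint : ∀ t : ℝ, Integrable (fun U => f (fg K t U)) ν := by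
    intro t
    refine Integrable.of_bound ((hf.comp (hcont t)).aestronglyMeasurable) C' ?_
    exact Eventually.of_forall fun U => hC' _
  have hkey := hasDerivAt_integral_of_dominated_loc_of_deriv_le (μ := ν) (𝕜 := ℝ)
    (F := fun t U => f (fg K t U)) (F' := fun t U => Df (fg K t U)) (x₀ := (0 : ℝ))
    (bound := fun _ => C) (s := Set.univ) Filter.univ_mem
    (Eventually.of_forall fun t => (hint t).aestronglyMeasurable) (hint 0)
    ((hDf.comp (hcont 0).measurable).aestronglyMeasurable)
    (Eventually.of_forall fun U t _ => hC _) (integrable_const C)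
    (Eventually.of_forall fun U t _ => hd' U t)
  have hconst : (fun t : ℝ => ∫ U, f (fg K t U) ∂ν) = fun _ => ∫ U, f U ∂ν := by
    funext t
    exact (hmp t).integral_comp' (f := by exact
      { toFun := fg K t
        invFun := fg K (-t)
        left_inv := fun U => by rw [← fg_add hK, neg_add_cancel, fg_zero]
        right_inv := fun U => by rw [← fg_add hK, add_neg_cancel, fg_zero]
        measurable_toFun := (hcont t).measurable
        measurable_invFun := (hcont (-t)).measurable }) f
  have h1 := hkey.2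
  simp only [hconst] at h1
  have h2 := h1.unique (hasDerivAt_const (0 : ℝ) (∫ U, f U ∂ν))
  simpa only [fg_zero] using h2

/-- the derivative of the plaquette -/
theorem hasDerivAt_plaqg (U : Link n L l → SU N) {K : Link n L l → Mt N}
    (hK : ∀ e, SkT (K e)) (x : Site n L l) (i j : Fin 4) :
    HasDerivAt (fun t : ℝ => (plaq (fg K t U) x i j).1) (dp U K x i j) 0 := by
  have h1 : (fun t : ℝ => (plaq (fg K t U) x i j).1) = fun t : ℝ =>
      (ex t (K (i, x))).1 * (U (i, x)).1 * (ex t (K (j, x + dir i))).1 *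
        ((U (j, x + dir i)).1 * ((U (i, x + dir j))⁻¹).1) * ((ex t (K (i, x + dir j)))⁻¹).1 *
        ((U (j, x))⁻¹).1 * ((ex t (K (j, x)))⁻¹).1 := by
    funext t
    unfold plaq fg
    rw [_root_.mul_inv_rev, _root_.mul_inv_rev]
    simp only [coe_mul', mul_assoc]
  rw [h1]
  have h2 := ((((((hasDerivAt_ex (hK (i, x)).1 (hK (i, x)).2).mul_const
    (U (i, x)).1).mul (hasDerivAt_ex (hK (j, x + dir i)).1 (hK (j, x + dir i)).2)).mul_const
      ((U (j, x + dir i)).1 * ((U (i, x + dir j))⁻¹).1)).mul
        (hasDerivAt_ex_inv (hK (i, x + dir j)).1 (hK (i, x + dir j)).2)).mul_const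
          ((U (j, x))⁻¹).1).mul (hasDerivAt_ex_inv (hK (j, x)).1 (hK (j, x)).2)
  refine h2.congr_deriv ?_
  simp only [Pi.mul_apply, ex_zero, inv_one, coe_one', mul_one, one_mul]
  have h3 : (plaq U x i j).1 = (U (i, x)).1 *
      ((U (j, x + dir i)).1 * ((U (i, x + dir j))⁻¹).1) * ((U (j, x))⁻¹).1 := by
    unfold plaq
    simp only [coe_mul', mul_assoc]
  unfold dp
  rw [h3]
  generalize ((U (j, x + dir i)).1 * ((U (i, x + dir j))⁻¹).1) = B
  have h4 : (U (i, x)).1ᴴ * (U (i, x)).1 = 1 := star_mul_self' (U (i, x))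
  have h5 : ((U (j, x))⁻¹).1 * (U (j, x)).1 = 1 := star_mul_self' (U (j, x))
  have h6 : ((U (j, x))⁻¹).1 = (U (j, x)).1ᴴ := rfl
  have e1 : (U (i, x)).1 * K (j, x + dir i) * (U (i, x)).1ᴴ *
      ((U (i, x)).1 * B * ((U (j, x))⁻¹).1) =
      (U (i, x)).1 * K (j, x + dir i) * B * ((U (j, x))⁻¹).1 := by
    calc _ = (U (i, x)).1 * K (j, x + dir i) * ((U (i, x)).1ᴴ * (U (i, x)).1) * B *
        ((U (j, x))⁻¹).1 := by simp only [mul_assoc]
      _ = _ := by rw [h4, mul_one]
  have e2 : (U (i, x)).1 * B * ((U (j, x))⁻¹).1 *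
      ((U (j, x)).1 * K (i, x + dir j) * (U (j, x)).1ᴴ) =
      (U (i, x)).1 * B * K (i, x + dir j) * ((U (j, x))⁻¹).1 := by
    calc _ = (U (i, x)).1 * B * (((U (j, x))⁻¹).1 * (U (j, x)).1) * K (i, x + dir j) *
        ((U (j, x)).1ᴴ) := by simp only [mul_assoc]
      _ = _ := by rw [h5, mul_one, h6]
  rw [add_mul (K (i, x)), mul_add ((U (i, x)).1 * B * ((U (j, x))⁻¹).1), e1, e2]
  simp only [add_mul, mul_neg, neg_mul, mul_assoc]
  abel

/-- the derivative of the action -/
theorem hasDerivAt_Sq [NeZero n] [NeZero L] [NeZero l] (k : ℕ) (q : ZMod n × ZMod L → ZMod N)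
    (U : Link n L l → SU N) {K : Link n L l → Mt N} (hK : ∀ e, SkT (K e)) :
    HasDerivAt (fun t : ℝ => Sq k q (fg K t U)) (dSq k q U K) 0 := by
  unfold Sq dSq
  rw [← Finset.sum_neg_distrib]
  refine HasDerivAt.fun_sum fun x _ => ?_
  rw [← Finset.sum_neg_distrib]
  refine HasDerivAt.fun_sum fun i _ => ?_
  rw [← Finset.sum_neg_distrib]
  refine HasDerivAt.fun_sum fun j _ => ?_
  refine HasDerivAt.const_sub _ ?_
  exact hasDerivAt_re_trace _ _ _ (hasDerivAt_plaqg U hK x i j)

theorem continuous_plaq (x : Site n L l) (i j : Fin 4) :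
    Continuous fun U : Link n L l → SU N => (plaq U x i j).1 := by
  have h : ∀ e : Link n L l, Continuous fun U : Link n L l → SU N => U e :=
    fun e => continuous_apply e
  have h1 : Continuous fun U : Link n L l → SU N => plaq U x i j :=
    (((h (i, x)).mul (h (j, x + dir i))).mul (h (i, x + dir j)).inv).mul (h (j, x)).inv
  exact continuous_coe.comp h1

theorem continuous_Sq [NeZero n] [NeZero L] [NeZero l] (k : ℕ)
    (q : ZMod n × ZMod L → ZMod N) :
    Continuous fun U : Link n L l → SU N => Sq k q U := by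
  unfold Sq
  refine continuous_finsetSum _ fun x _ => continuous_finsetSum _ fun i _ =>
    continuous_finsetSum _ fun j _ => ?_
  exact continuous_const.sub (Complex.continuous_re.comp
    (continuous_const.mul (continuous_plaq x i j).matrix_trace))

theorem continuous_dSq [NeZero n] [NeZero L] [NeZero l] (k : ℕ)
    (q : ZMod n × ZMod L → ZMod N) (K : Link n L l → Mt N) :
    Continuous fun U : Link n L l → SU N => dSq k q U K := by
  unfold dSq
  refine (continuous_finsetSum _ fun x _ => continuous_finsetSum _ fun i _ =>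
    continuous_finsetSum _ fun j _ => ?_).neg
  refine Complex.continuous_re.comp (continuous_const.mul ?_)
  refine Continuous.matrix_trace ?_
  unfold dp
  have hc : ∀ e : Link n L l, Continuous fun U : Link n L l → SU N => (U e).1 := fun e =>
    continuous_coe.comp (continuous_apply e)
  have hs : ∀ e : Link n L l, Continuous fun U : Link n L l → SU N => (U e).1ᴴ := fun e =>
    (hc e).matrix_conjTranspose
  exact ((continuous_const.add (((hc _).mul continuous_const).mul (hs _))).mul
    (continuous_plaq x i j)).sub ((continuous_plaq x i j).mul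
      ((((hc _).mul continuous_const).mul (hs _)).add continuous_const))

/-- linearity of the derivative of the action -/
noncomputable def dSqL [NeZero n] [NeZero L] [NeZero l] (k : ℕ)
    (q : ZMod n × ZMod L → ZMod N) (U : Link n L l → SU N) :
    (Link n L l → Mt N) →ₗ[ℝ] ℝ where
  toFun K := dSq k q U K
  map_add' K K' := by
    unfold dSq
    rw [← neg_add]
    congr 1
    rw [← Finset.sum_add_distrib]
    refine Finset.sum_congr rfl fun x _ => ?_
    rw [← Finset.sum_add_distrib]
    refine Finset.sum_congr rfl fun i _ => ?_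
    rw [← Finset.sum_add_distrib]
    refine Finset.sum_congr rfl fun j _ => ?_
    rw [← Complex.add_re, ← mul_add, ← trace_add]
    congr 3
    unfold dp
    simp only [Pi.add_apply, mul_add, add_mul]
    abel
  map_smul' r K := by
    unfold dSq
    rw [RingHom.id_apply, smul_eq_mul, mul_neg]
    congr 1
    rw [Finset.mul_sum]
    refine Finset.sum_congr rfl fun x _ => ?_
    rw [Finset.mul_sum]
    refine Finset.sum_congr rfl fun i _ => ?_
    rw [Finset.mul_sum]
    refine Finset.sum_congr rfl fun j _ => ?_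
    have h1 : dp U (r • K) x i j = r • dp U K x i j := by
      unfold dp
      simp only [Pi.smul_apply, mul_smul_comm, smul_mul_assoc, ← smul_add, ← smul_sub]
    rw [h1, trace_smul, Complex.real_smul, ← Complex.re_ofReal_mul]
    congr 1
    ring

end Run7.h771.QC
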